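import Pool.Agent.V5helper41.PD.Stm

/-!
# Project PD, job CON: numbers in `ℚ(μ_∞, ρ)` whose conjugates are conjugates over `ℚ(μ_∞)`
-/

set_option autoImplicit false

namespace V5helper22.PD

open IntermediateField Polynomial
open Pool.Agent.H58P (Qb)
open Pool.Agent.W237.RK V5helper41.PD

/-- the field on which two automorphisms agree -/
noncomputable def EqF (σ τ : Aut) : GF where
  carrier := {x | σ x = τ x}
  mul_mem' {x y} hx hy := by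
    show σ (x * y) = τ (x * y)
    rw [map_mul, map_mul, show σ x = τ x from hx, show σ y = τ y from hy]
  add_mem' {x y} hx hy := by
    show σ (x + y) = τ (x + y)
    rw [map_add, map_add, show σ x = τ x from hx, show σ y = τ y from hy]
  algebraMap_mem' r := by
    show σ (algebraMap ℚ Qb r) = τ (algebraMap ℚ Qb r)
    rw [AlgEquiv.commutes, AlgEquiv.commutes]
  inv_mem' x hx := by
    show σ x⁻¹ = τ x⁻¹
    rw [map_inv₀, map_inv₀, show σ x = τ x from hx]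

lemma mem_EqF {σ τ : Aut} {x : Qb} : x ∈ EqF σ τ ↔ σ x = τ x := Iff.rfl

lemma agree_Kx {σ τ : Aut} {θ : Qb} (h : ∀ (ζ : Qb) (n : ℕ), 0 < n → ζ ^ n = 1 → σ ζ = τ ζ)
    (h' : σ θ = τ θ) {x : Qb} (hx : x ∈ Kx θ) : σ x = τ x := by
  have h1 : Kx θ ≤ EqF σ τ := by
    refine sup_le ?_ ?_
    · refine adjoin_le_iff.2 ?_
      rintro y ⟨n, hn, hy⟩
      exact h y n hn hy
    · exact adjoin_simple_le_iff.2 h'
  exact h1 hx

lemma root_mem {ζ : Qb} {n : ℕ} (hn : 0 < n) (h : ζ ^ n = 1) : ζ ∈ Kmu :=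
  subset_adjoin ℚ _ ⟨n, hn, h⟩

lemma map_root (σ : Aut) {ζ : Qb} {n : ℕ} (hn : 0 < n) (h : ζ ^ n = 1) :
    ∃ m : ℕ, σ ζ = ζ ^ m := by
  have : NeZero n := ⟨hn.ne'⟩
  have hu : IsUnit ζ := IsUnit.of_pow_eq_one h hn.ne'
  obtain ⟨u, rfl⟩ := hu
  have hm : u ∈ rootsOfUnity n Qb := by
    rw [mem_rootsOfUnity]
    ext
    rw [Units.val_pow_eq_pow_val, h, Units.val_one]
  obtain ⟨m, hm'⟩ := map_rootsOfUnity_eq_pow_self σ ⟨u, hm⟩
  exact ⟨m, hm'⟩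

lemma comm_root (σ τ : Aut) {ζ : Qb} {n : ℕ} (hn : 0 < n) (h : ζ ^ n = 1) :
    σ (τ ζ) = τ (σ ζ) := by
  obtain ⟨i, hi⟩ := map_root σ hn h
  obtain ⟨j, hj⟩ := map_root τ hn h
  rw [hi, hj, map_pow, map_pow, hi, hj, ← pow_mul, ← pow_mul, mul_comm]

theorem t_CON (h1 : S_GAL) (h2 : S_CC) : S_CON := by
  intro a p ρ α ha hp hp2 hρ hα h
  obtain ⟨c, hc⟩ := h2
  have hp0 : 0 < p := hp.pos
  have ha0 : (a : Qb) ≠ 0 := by
    have : a ≠ 0 := by omega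
    exact_mod_cast this
  have hρ0 : ρ ≠ 0 := by
    intro h0
    rw [h0, zero_pow hp0.ne'] at hρ
    exact ha0 hρ.symm
  obtain ⟨s, hs, hsα⟩ := h c
  -- `c₁`
  obtain ⟨c₁, hc₁⟩ : ∃ c₁ : Aut, ∀ x, c₁ x = s.symm (c x) := ⟨c.trans s.symm, fun x => rfl⟩
  have hc₁α : c₁ α = α := by rw [hc₁, ← hsα, AlgEquiv.symm_apply_apply]
  have hc₁ζ : ∀ (ζ : Qb) (n : ℕ), 0 < n → ζ ^ n = 1 → c₁ ζ = ζ⁻¹ := by
    intro ζ n hn hζ
    rw [hc₁, hc ζ n hn hζ, AlgEquiv.symm_apply_eq, map_inv₀, hs ζ (root_mem hn hζ)]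
  -- `η`
  obtain ⟨η, hη⟩ : ∃ η : Qb, η = c₁ ρ / ρ := ⟨_, rfl⟩
  have hηp : η ^ p = 1 := by
    rw [hη, div_pow, ← map_pow, hρ, map_natCast, div_self ha0]
  have hη0 : η ≠ 0 := by
    intro h0
    rw [h0, zero_pow hp0.ne'] at hηp
    exact zero_ne_one hηp
  have hc₁ρ : c₁ ρ = η * ρ := by rw [hη, div_mul_cancel₀ _ hρ0]
  obtain ⟨k, hk⟩ : ∃ k, p = 2 * k + 1 := hp.odd_of_ne_two hp2
  obtain ⟨ρ', hρ'⟩ : ∃ ρ' : Qb, ρ' = η ^ (k + 1) * ρ := ⟨_, rfl⟩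
  have hρ'0 : ρ' ≠ 0 := by rw [hρ']; exact mul_ne_zero (pow_ne_zero _ hη0) hρ0
  have hρ'p : ρ' ^ p = (a : Qb) := by
    rw [hρ', mul_pow, ← pow_mul, mul_comm (k + 1) p, pow_mul, hηp, one_pow, one_mul, hρ]
  have hc₁ρ' : c₁ ρ' = ρ' := by
    have h3 : η ^ (k + 1) * η ^ (k + 1) = η := by
      rw [← pow_add, show k + 1 + (k + 1) = p + 1 by omega, pow_succ, hηp, one_mul]
    rw [hρ', map_mul, map_pow, hc₁ζ η p hp0 hηp, hc₁ρ, inv_pow, ← mul_assoc]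
    congr 1
    rw [inv_mul_eq_div, div_eq_iff (pow_ne_zero _ hη0), h3]
  have hαρ' : α ∈ Kx ρ' := by
    have h3 : Kx ρ ≤ Kx ρ' := by
      refine sup_le le_sup_left ?_
      refine adjoin_simple_le_iff.2 ?_
      have h4 : ρ = (η ^ (k + 1))⁻¹ * ρ' := by
        rw [hρ', ← mul_assoc, inv_mul_cancel₀ (pow_ne_zero _ hη0), one_mul]
      rw [h4]
      refine mul_mem (inv_mem (pow_mem ?_ _)) ?_
      · exact (le_sup_left : Kmu ≤ Kx ρ') (root_mem hp0 hηp)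
      · exact (le_sup_right : ℚ⟮ρ'⟯ ≤ Kx ρ') (mem_adjoin_simple_self ℚ ρ')
    exact h3 hα
  refine ⟨ρ', hρ'p, h1 _ _ fun g hg => ?_⟩
  have hgρ : g ρ' = ρ' := hg ρ' (mem_adjoin_simple_self ℚ ρ')
  have hcg : c₁ (g α) = g α := by
    have h3 : (c₁ * g) α = (g * c₁) α := by
      refine agree_Kx (θ := ρ') ?_ ?_ hαρ'
      · intro ζ n hn hζ
        exact comm_root c₁ g hn hζ
      · rw [AlgEquiv.mul_apply, AlgEquiv.mul_apply, hgρ, hc₁ρ', hgρ]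
    rw [AlgEquiv.mul_apply, AlgEquiv.mul_apply, hc₁α] at h3
    exact h3
  obtain ⟨s, hs, hsα⟩ := h g
  obtain ⟨ω, hω⟩ : ∃ ω : Qb, ω = s ρ' / ρ' := ⟨_, rfl⟩
  have hωp : ω ^ p = 1 := by
    rw [hω, div_pow, ← map_pow, hρ'p, map_natCast, div_self ha0]
  have hω0 : ω ≠ 0 := by
    intro h0
    rw [h0, zero_pow hp0.ne'] at hωp
    exact zero_ne_one hωp
  have hsρ : s ρ' = ω * ρ' := by rw [hω, div_mul_cancel₀ _ hρ'0]
  have hsω : s ω = ω := hs ω (root_mem hp0 hωp)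
  have hsinv : ∀ x : Qb, s⁻¹ x = s.symm x := fun x => rfl
  have h5 : c₁ (s α) = s.symm α := by
    have h3 : (c₁ * s) α = (s⁻¹ * c₁) α := by
      refine agree_Kx (θ := ρ') ?_ ?_ hαρ'
      · intro ζ n hn hζ
        rw [AlgEquiv.mul_apply, AlgEquiv.mul_apply, hs ζ (root_mem hn hζ), hc₁ζ ζ n hn hζ, hsinv,
          eq_comm, AlgEquiv.symm_apply_eq, map_inv₀, hs ζ (root_mem hn hζ)]
      · rw [AlgEquiv.mul_apply, AlgEquiv.mul_apply, hsρ, map_mul, hc₁ζ ω p hp0 hωp, hc₁ρ', hsinv,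
          eq_comm, AlgEquiv.symm_apply_eq, map_mul, map_inv₀, hsω, hsρ, ← mul_assoc,
          inv_mul_cancel₀ hω0, one_mul]
    rw [AlgEquiv.mul_apply, AlgEquiv.mul_apply, hc₁α] at h3
    exact h3
  have h6 : s (s α) = α := by
    rw [hsα, hcg] at h5
    rw [hsα]
    rw [h5, AlgEquiv.apply_symm_apply]
  have h7 : ∀ n : ℕ, (s ^ (2 * n)) α = α := by
    intro n
    induction n with
    | zero => rfl
    | succ n ih =>
      rw [show 2 * (n + 1) = 2 + 2 * n by ring, pow_add, AlgEquiv.mul_apply, ih, pow_two,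
        AlgEquiv.mul_apply, h6]
  have h8 : ∀ n : ℕ, (s ^ n) ρ' = ω ^ n * ρ' := by
    intro n
    induction n with
    | zero => rw [pow_zero, pow_zero, one_mul]; rfl
    | succ n ih =>
      rw [pow_succ', AlgEquiv.mul_apply, ih, map_mul, map_pow, hsω, hsρ, pow_succ, mul_assoc]
  have h9 : (s ^ p) α = α := by
    have h3 : (s ^ p) α = (1 : Aut) α := by
      refine agree_Kx (θ := ρ') ?_ ?_ hαρ'
      · intro ζ n hn hζ
        have h10 : ∀ m : ℕ, (s ^ m) ζ = ζ := by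
          intro m
          induction m with
          | zero => rfl
          | succ m ih => rw [pow_succ', AlgEquiv.mul_apply, ih, hs ζ (root_mem hn hζ)]
        rw [h10]
        rfl
      · rw [h8, hωp, one_mul]
        rfl
    exact h3
  rw [← hsα]
  have h11 : (s ^ p) α = s ((s ^ (2 * k)) α) := by
    rw [hk, pow_succ', AlgEquiv.mul_apply]
  rw [h7, h9] at h11
  exact h11.symm

end V5helper22.PD
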